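import Pool.Agent.Lib.MP_f0c981_al.Hier
import Pool.Agent.Lib.MP_f0c981_al.T4.Fin

set_option autoImplicit false

namespace Pool.Agent.Results.MP_f0c981_al.Hierarchy

open CategoryTheory Limits Pool.Agent.Lib.MP_f0c981_al

theorem result {Γ : Type} [Group Γ] (P : ProjectiveResolution (Rep.trivial ℤ Γ ℤ)) (d : ℕ)
    (hP : ∀ n, d < n → IsZero (P.complex.X n)) (g : Γ) (hg : ¬ IsOfFinOrder g)
    (h : Tame (NG g)) : BPAt g hg :=
  bp_of_tame (fun _ _ P d hP g hg p hp h => bp_of_noTower P d hP g hg p hp h) P hP hg h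

end Pool.Agent.Results.MP_f0c981_al.Hierarchy
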